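import Mathlib

set_option autoImplicit false
set_option linter.unusedSectionVars false
set_option linter.unusedVariables false
set_option linter.deprecated false

/-! Bernoulli bond percolation on a countable graph: basic events and independence. -/

namespace Pool.Agent.H890.Q

open MeasureTheory ProbabilityTheory Set
open scoped ENNReal

section meas
variable {E : Type} (μ : Measure Bool) [IsProbabilityMeasure μ]

/-- product measure -/
noncomputable def mu (E : Type) (μ : Measure Bool) [IsProbabilityMeasure μ] :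
    Measure (E → Bool) := Measure.infinitePi (fun _ : E => μ)

instance : IsProbabilityMeasure (mu E μ) := by unfold mu; infer_instance

@[reducible] def cs {E : Type} (I : Set E) : MeasurableSpace (E → Bool) :=
  ⨆ i ∈ I, MeasurableSpace.comap (fun ω : E → Bool => ω i) inferInstance

theorem cs_le (I : Set E) : cs I ≤ (MeasurableSpace.pi : MeasurableSpace (E → Bool)) := by
  refine iSup₂_le fun i _ => ?_
  exact (measurable_pi_apply i).comap_le

theorem cs_mono {I J : Set E} (h : I ⊆ J) : cs I ≤ cs J :=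
  biSup_mono (fun _ hi => h hi)

theorem cs_coord {I : Set E} {e : E} (he : e ∈ I) (b : Bool) :
    MeasurableSet[cs I] {ω : E → Bool | ω e = b} := by
  have h : MeasurableSpace.comap (fun ω : E → Bool => ω e) inferInstance ≤ cs I :=
    le_iSup₂_of_le e he le_rfl
  apply h
  exact ⟨{b}, MeasurableSet.singleton b, by ext; simp⟩

theorem iIndep_coord :
    iIndep (fun i : E => MeasurableSpace.comap (fun ω : E → Bool => ω i) inferInstance)
      (mu E μ) := by
  have := iIndepFun_infinitePi (ι := E) (Ω := fun _ => Bool)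
    (P := fun _ => μ) (X := fun _ b => b) (by fun_prop)
  exact this

theorem indep_cs {I J : Set E} (h : Disjoint I J) :
    Indep (cs I) (cs J) (mu E μ) :=
  indep_iSup_of_disjoint (fun i => (measurable_pi_apply i).comap_le) (iIndep_coord μ) h

theorem mu_inter {I J : Set E} (h : Disjoint I J)
    {A B : Set (E → Bool)} (hA : MeasurableSet[cs I] A) (hB : MeasurableSet[cs J] B) :
    mu E μ (A ∩ B) = mu E μ A * mu E μ B :=
  (Indep_iff _ _ _).1 (indep_cs μ h) A B hA hB

theorem mu_inter3 {I J K : Set E} (hIJ : Disjoint I J) (hIK : Disjoint I K) (hJK : Disjoint J K)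
    {A B C : Set (E → Bool)} (hA : MeasurableSet[cs I] A) (hB : MeasurableSet[cs J] B)
    (hC : MeasurableSet[cs K] C) :
    mu E μ (A ∩ (B ∩ C)) = mu E μ A * (mu E μ B * mu E μ C) := by
  rw [mu_inter μ (I := I) (J := J ∪ K) (by rw [Set.disjoint_union_right]; exact ⟨hIJ, hIK⟩) hA,
    mu_inter μ hJK hB hC]
  exact MeasurableSet.inter (cs_mono subset_union_left _ hB) (cs_mono subset_union_right _ hC)

theorem mu_coord (e : E) : mu E μ {ω | ω e = true} = μ {true} := by
  have h := Measure.infinitePi_map_eval (fun _ : E => μ) e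
  have h2 : mu E μ {ω | ω e = true} = ((mu E μ).map (fun x => x e)) {true} := by
    rw [Measure.map_apply (measurable_pi_apply e) (MeasurableSet.singleton _)]
    rfl
  rw [h2]
  unfold mu
  rw [h]

theorem map_comp_inj {E' : Type} (ι : E' → E) (hι : Function.Injective ι) :
    (mu E μ).map (fun ω e => ω (ι e)) = mu E' μ := by
  classical
  have hm : Measurable (fun (ω : E → Bool) (e : E') => ω (ι e)) :=
    measurable_pi_lambda _ fun e => measurable_pi_apply _
  refine Measure.eq_infinitePi _ fun s t ht => ?_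
  rw [Measure.map_apply hm (MeasurableSet.pi s.countable_toSet (fun i _ => ht i))]
  have hex : ∀ e ∈ s.image ι, ∃ e' ∈ s, ι e' = e := by
    intro e he
    simpa using he
  let t' : E → Set Bool := fun e => if h : ∃ e', ι e' = e then t h.choose else Set.univ
  have ht' : ∀ e', t' (ι e') = t e' := by
    intro e'
    have h : ∃ e'', ι e'' = ι e' := ⟨e', rfl⟩
    simp only [t']
    rw [dif_pos h, hι h.choose_spec]
  have hset : (fun (ω : E → Bool) (e : E') => ω (ι e)) ⁻¹' (Set.pi s t) =
      Set.pi (s.image ι : Finset E) t' := by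
    ext ω
    simp only [Set.mem_preimage, Set.mem_pi, Finset.mem_coe, Finset.mem_image]
    constructor
    · rintro h e ⟨e', he', rfl⟩
      rw [ht']; exact h e' he'
    · intro h e' he'
      have := h (ι e') ⟨e', he', rfl⟩
      rwa [ht'] at this
  rw [hset]
  unfold mu
  rw [Measure.infinitePi_pi]
  · rw [Finset.prod_image (fun a _ b _ h => hι h)]
    refine Finset.prod_congr rfl fun e _ => ?_
    rw [ht']
  · intro e he
    exact (Set.toFinite _).measurableSet

end meas

section graph
variable {W : Type} (G : SimpleGraph W)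

def op (ω : G.edgeSet → Bool) (x y : W) : Prop :=
  ∃ h : s(x, y) ∈ G.edgeSet, ω ⟨s(x, y), h⟩ = true

variable {G}

theorem op.adj {ω : G.edgeSet → Bool} {x y : W} (h : op G ω x y) : G.Adj x y := by
  obtain ⟨h, _⟩ := h
  simpa using h

theorem op.symm {ω : G.edgeSet → Bool} {x y : W} (h : op G ω x y) : op G ω y x := by
  obtain ⟨h, h2⟩ := h
  have h' : s(y, x) ∈ G.edgeSet := by rw [Sym2.eq_swap]; exact h
  refine ⟨h', ?_⟩
  rw [← h2]
  congr 1
  exact Subtype.ext Sym2.eq_swap

theorem op_comm {ω : G.edgeSet → Bool} {x y : W} : op G ω x y ↔ op G ω y x :=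
  ⟨op.symm, op.symm⟩

variable (G)

/-- reachability by open edges inside `A` -/
inductive Rch (ω : G.edgeSet → Bool) (A : Set W) (x : W) : W → Prop
  | refl (hx : x ∈ A) : Rch ω A x x
  | tail {y z : W} (h : Rch ω A x y) (hz : z ∈ A) (ho : op G ω y z) : Rch ω A x z

variable {G}

theorem Rch.left_mem {ω : G.edgeSet → Bool} {A : Set W} {x y : W} (h : Rch G ω A x y) :
    x ∈ A := by
  induction h with
  | refl hx => exact hx
  | tail _ _ _ ih => exact ih

theorem Rch.right_mem {ω : G.edgeSet → Bool} {A : Set W} {x y : W} (h : Rch G ω A x y) :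
    y ∈ A := by
  cases h with
  | refl hx => exact hx
  | tail _ hz _ => exact hz

theorem Rch.trans {ω : G.edgeSet → Bool} {A : Set W} {x y z : W} (h : Rch G ω A x y)
    (h' : Rch G ω A y z) : Rch G ω A x z := by
  induction h' with
  | refl _ => exact h
  | tail _ hz ho ih => exact ih.tail hz ho

theorem Rch.head {ω : G.edgeSet → Bool} {A : Set W} {x y z : W} (hx : x ∈ A)
    (ho : op G ω x y) (h : Rch G ω A y z) : Rch G ω A x z :=
  ((Rch.refl hx).tail h.left_mem ho).trans h

theorem Rch.symm {ω : G.edgeSet → Bool} {A : Set W} {x y : W} (h : Rch G ω A x y) :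
    Rch G ω A y x := by
  induction h with
  | refl hx => exact Rch.refl hx
  | tail _ hz ho ih => exact Rch.head hz ho.symm ih

theorem Rch.mono {ω : G.edgeSet → Bool} {A B : Set W} (hAB : A ⊆ B) {x y : W}
    (h : Rch G ω A x y) : Rch G ω B x y := by
  induction h with
  | refl hx => exact Rch.refl (hAB hx)
  | tail _ hz ho ih => exact ih.tail (hAB hz) ho

theorem Rch.finite {ω : G.edgeSet → Bool} {A : Set W} {x y : W}
    (h : Rch G ω A x y) : ∃ F : Finset W, ↑F ⊆ A ∧ Rch G ω (F : Set W) x y := by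
  classical
  induction h with
  | refl hx => exact ⟨{x}, by simpa using hx, Rch.refl (by simp)⟩
  | @tail y z _ hz ho ih =>
    obtain ⟨F, hF, hR⟩ := ih
    refine ⟨insert z F, ?_, ?_⟩
    · intro w hw
      simp only [Finset.coe_insert, Set.mem_insert_iff] at hw
      rcases hw with rfl | hw
      · exact hz
      · exact hF hw
    · exact (hR.mono (by intro w hw; simp at hw ⊢; exact Or.inr hw)).tail (by simp) ho

theorem Rch.of_directed {ω : G.edgeSet → Bool} {κ : Type} {A : κ → Set W} {B : Set W}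
    (hdir : Directed (· ⊆ ·) A) (hB : B ⊆ ⋃ i, A i) {x y : W}
    (h : Rch G ω B x y) : ∃ i, Rch G ω (A i) x y := by
  induction h with
  | refl hx =>
    obtain ⟨i, hi⟩ := mem_iUnion.1 (hB hx)
    exact ⟨i, Rch.refl hi⟩
  | @tail y z _ hz ho ih =>
    obtain ⟨i, hi⟩ := ih
    obtain ⟨j, hj⟩ := mem_iUnion.1 (hB hz)
    obtain ⟨k, hik, hjk⟩ := hdir i j
    exact ⟨k, (hi.mono hik).tail (hjk hj) ho⟩

theorem rch_iff_reachable {ω : G.edgeSet → Bool} {x y : W} :
    (SimpleGraph.fromEdgeSet {e : Sym2 W | ∃ h : e ∈ G.edgeSet, ω ⟨e, h⟩ = true}).Reachable x y ↔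
      Rch G ω univ x y := by
  constructor
  · rintro ⟨w⟩
    induction w with
    | nil => exact Rch.refl (mem_univ _)
    | cons h _ ih =>
      rw [SimpleGraph.fromEdgeSet_adj] at h
      exact Rch.head (mem_univ _) h.1 ih
  · intro h
    induction h with
    | refl _ => exact SimpleGraph.Reachable.refl _
    | tail _ _ ho ih =>
      refine ih.trans (SimpleGraph.Adj.reachable ?_)
      rw [SimpleGraph.fromEdgeSet_adj]
      exact ⟨ho, ho.adj.ne⟩

/-- edges inside `A` -/
def ein (G : SimpleGraph W) (A : Set W) : Set G.edgeSet := {e | ∀ v ∈ e.1, v ∈ A}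

theorem ein_mono {A B : Set W} (h : A ⊆ B) : ein G A ⊆ ein G B :=
  fun _ he v hv => h (he v hv)

theorem ein_disj {A B : Set W} (h : ∀ x y, G.Adj x y → x ∈ A → y ∈ A → x ∈ B → y ∈ B → False) :
    Disjoint (ein G A) (ein G B) := by
  rw [Set.disjoint_left]
  rintro ⟨e, he⟩ h1 h2
  induction e using Sym2.ind with
  | _ x y =>
    refine h x y (by simpa using he) (h1 x (by simp)) (h1 y (by simp)) (h2 x (by simp))
      (h2 y (by simp))

/-- edges between `A` and `B` -/
def ebt (G : SimpleGraph W) (A B : Set W) : Set G.edgeSet :=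
  {e | ∃ x ∈ A, ∃ y ∈ B, e.1 = s(x, y)}

theorem meas_op {I : Set G.edgeSet} {x y : W} (hI : ∀ h : s(x, y) ∈ G.edgeSet, ⟨s(x, y), h⟩ ∈ I) :
    MeasurableSet[cs I] {ω | op G ω x y} := by
  by_cases h : s(x, y) ∈ G.edgeSet
  · have : {ω | op G ω x y} = {ω | ω ⟨s(x, y), h⟩ = true} := by
      ext ω; simp only [mem_setOf_eq, op]
      exact ⟨fun ⟨_, h2⟩ => h2, fun h2 => ⟨h, h2⟩⟩
    rw [this]
    exact cs_coord (hI h) true
  · have : {ω | op G ω x y} = ∅ := by
      ext ω; simp only [mem_setOf_eq, op, mem_empty_iff_false, iff_false]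
      rintro ⟨h', _⟩; exact h h'
    rw [this]
    exact @MeasurableSet.empty _ (cs I)

/-- `n`-step reachability -/
def RchN (ω : G.edgeSet → Bool) (A : Set W) (x : W) : ℕ → W → Prop
  | 0, y => x = y ∧ x ∈ A
  | n + 1, y => ∃ z, RchN ω A x n z ∧ z ∈ A ∧ op G ω z y ∧ y ∈ A

theorem RchN_mem {ω : G.edgeSet → Bool} {A : Set W} {x : W} : ∀ {n : ℕ} {y : W},
    RchN ω A x n y → y ∈ A
  | 0, y, h => h.1 ▸ h.2
  | n + 1, y, ⟨z, _, _, _, h⟩ => h

theorem rch_iff_rchN {ω : G.edgeSet → Bool} {A : Set W} {x y : W} :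
    Rch G ω A x y ↔ ∃ n, RchN ω A x n y := by
  constructor
  · intro h
    induction h with
    | refl hx => exact ⟨0, rfl, hx⟩
    | tail _ hz ho ih =>
      obtain ⟨n, hn⟩ := ih
      exact ⟨n + 1, _, hn, RchN_mem hn, ho, hz⟩
  · rintro ⟨n, hn⟩
    induction n generalizing y with
    | zero => obtain ⟨rfl, hx⟩ := hn; exact Rch.refl hx
    | succ n ih =>
      obtain ⟨z, hz, _, ho, hy⟩ := hn
      exact (ih hz).tail hy ho

theorem meas_rchN [Countable W] (A : Set W) (x : W) : ∀ (n : ℕ) (y : W),
    MeasurableSet[cs (ein G A)] {ω | RchN ω A x n y}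
  | 0, y => by
    by_cases h : x = y ∧ x ∈ A
    · have : {ω : G.edgeSet → Bool | RchN ω A x 0 y} = univ := by
        ext ω; simp [RchN, h.1, h.1 ▸ h.2]
      rw [this]; exact @MeasurableSet.univ _ (cs (ein G A))
    · have : {ω : G.edgeSet → Bool | RchN ω A x 0 y} = ∅ := by
        ext ω
        simp only [RchN, mem_setOf_eq, mem_empty_iff_false, iff_false]
        exact h
      rw [this]; exact @MeasurableSet.empty _ (cs (ein G A))
  | n + 1, y => by
    have : {ω : G.edgeSet → Bool | RchN ω A x (n + 1) y} =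
        ⋃ z : W, {ω | RchN ω A x n z} ∩ {ω | z ∈ A ∧ op G ω z y ∧ y ∈ A} := by
      ext ω
      simp only [RchN, mem_setOf_eq, mem_iUnion, mem_inter_iff]
    rw [this]
    refine MeasurableSet.iUnion fun z => (meas_rchN A x n z).inter ?_
    by_cases hz : z ∈ A ∧ y ∈ A
    · have : {ω : G.edgeSet → Bool | z ∈ A ∧ op G ω z y ∧ y ∈ A} = {ω | op G ω z y} := by
        ext ω; simp [hz.1, hz.2]
      rw [this]
      refine meas_op fun h => ?_
      intro v hv
      rcases Sym2.mem_iff.1 hv with rfl | rfl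
      · exact hz.1
      · exact hz.2
    · have : {ω : G.edgeSet → Bool | z ∈ A ∧ op G ω z y ∧ y ∈ A} = ∅ := by
        ext ω
        simp only [mem_setOf_eq, mem_empty_iff_false, iff_false]
        tauto
      rw [this]
      exact @MeasurableSet.empty _ (cs (ein G A))

theorem meas_rch [Countable W] (A : Set W) (x y : W) :
    MeasurableSet[cs (ein G A)] {ω | Rch G ω A x y} := by
  have : {ω : G.edgeSet → Bool | Rch G ω A x y} = ⋃ n, {ω | RchN ω A x n y} := by
    ext ω; simp only [mem_setOf_eq, mem_iUnion]; exact rch_iff_rchN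
  rw [this]
  exact MeasurableSet.iUnion fun n => meas_rchN A x n y

theorem meas_rch' [Countable W] (A : Set W) (x y : W) :
    MeasurableSet {ω | Rch G ω A x y} := cs_le _ _ (meas_rch A x y)

variable (μ : Measure Bool) [IsProbabilityMeasure μ]

/-- two-point function inside `A` -/
noncomputable def tp (G : SimpleGraph W) (A : Set W) (x y : W) : ℝ≥0∞ :=
  mu G.edgeSet μ {ω | Rch G ω A x y}

theorem tp_le_one (A : Set W) (x y : W) : tp μ G A x y ≤ 1 := prob_le_one

theorem tp_mono {A B : Set W} (h : A ⊆ B) (x y : W) : tp μ G A x y ≤ tp μ G B x y :=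
  measure_mono fun _ hω => Rch.mono h hω

theorem tp_comm (A : Set W) (x y : W) : tp μ G A x y = tp μ G A y x := by
  unfold tp
  congr 1
  ext ω
  exact ⟨Rch.symm, Rch.symm⟩

theorem tp_self {A : Set W} {x : W} (hx : x ∈ A) : tp μ G A x x = 1 := by
  unfold tp
  have : {ω : G.edgeSet → Bool | Rch G ω A x x} = univ := by
    ext ω; simp only [mem_setOf_eq, mem_univ, iff_true]; exact Rch.refl hx
  rw [this, measure_univ]

theorem mu_op {x y : W} (h : G.Adj x y) : mu G.edgeSet μ {ω | op G ω x y} = μ {true} := by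
  have h' : s(x, y) ∈ G.edgeSet := by simpa using h
  have : {ω | op G ω x y} = {ω | ω ⟨s(x, y), h'⟩ = true} := by
    ext ω; simp only [mem_setOf_eq, op]
    exact ⟨fun ⟨_, h2⟩ => h2, fun h2 => ⟨h', h2⟩⟩
  rw [this, mu_coord]

theorem mu_op_le {x y : W} : mu G.edgeSet μ {ω | op G ω x y} ≤ μ {true} := by
  by_cases h : G.Adj x y
  · exact (mu_op μ h).le
  · have : {ω | op G ω x y} = (∅ : Set (G.edgeSet → Bool)) := by
      ext ω; simp only [mem_setOf_eq, mem_empty_iff_false, iff_false]
      intro h'; exact h h'.adj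
    rw [this]; simp

/-- embedding lemma -/
theorem tp_embed {W' : Type} {G' : SimpleGraph W'} [Countable W] [Countable W'] (φ : G' ↪g G)
    (A : Set W') (x y : W') : tp μ G (φ '' A) (φ x) (φ y) = tp μ G' A x y := by
  let ι : G'.edgeSet → G.edgeSet := fun e => ⟨e.1.map φ, by
    obtain ⟨e, he⟩ := e
    induction e using Sym2.ind with
    | _ a b =>
      simp only [Sym2.map_pair_eq, SimpleGraph.mem_edgeSet] at he ⊢
      exact φ.map_rel_iff.2 he⟩
  have hι : Function.Injective ι := by
    intro e e' h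
    have := congrArg Subtype.val h
    exact Subtype.ext (Sym2.map.injective φ.injective this)
  have hop : ∀ (ω : G.edgeSet → Bool) (a b : W'), op G ω (φ a) (φ b) ↔
      op G' (fun e => ω (ι e)) a b := by
    intro ω a b
    constructor
    · rintro ⟨h, h2⟩
      have h' : s(a, b) ∈ G'.edgeSet := by
        simp only [SimpleGraph.mem_edgeSet] at h ⊢
        exact φ.map_rel_iff.1 h
      exact ⟨h', h2⟩
    · rintro ⟨h, h2⟩
      have h' : s(φ a, φ b) ∈ G.edgeSet := by
        simp only [SimpleGraph.mem_edgeSet] at h ⊢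
        exact φ.map_rel_iff.2 h
      exact ⟨h', h2⟩
  have hR : ∀ (ω : G.edgeSet → Bool) (b : W'), Rch G ω (φ '' A) (φ x) (φ b) ↔
      Rch G' (fun e => ω (ι e)) A x b := by
    intro ω b
    constructor
    · intro h
      have key : ∀ z, Rch G ω (φ '' A) (φ x) z → ∃ b, φ b = z ∧
          Rch G' (fun e => ω (ι e)) A x b := by
        intro z hz
        induction hz with
        | refl hx =>
          obtain ⟨a, ha, hax⟩ := hx
          have := φ.injective hax
          subst this
          exact ⟨a, rfl, Rch.refl ha⟩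
        | tail _ hz ho ih =>
          obtain ⟨b, rfl, hb⟩ := ih
          obtain ⟨c, hc, rfl⟩ := hz
          exact ⟨c, rfl, hb.tail hc ((hop ω b c).1 ho)⟩
      obtain ⟨b', hb', h'⟩ := key _ h
      rw [← φ.injective hb']
      exact h'
    · intro h
      induction h with
      | refl hx => exact Rch.refl ⟨_, hx, rfl⟩
      | tail _ hz ho ih => exact ih.tail ⟨_, hz, rfl⟩ ((hop _ _ _).2 ho)
  have hm : Measurable (fun (ω : G.edgeSet → Bool) (e : G'.edgeSet) => ω (ι e)) :=
    measurable_pi_lambda _ fun e => measurable_pi_apply _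
  unfold tp
  rw [← map_comp_inj μ ι hι, Measure.map_apply hm (meas_rch' A x y)]
  congr 1
  ext ω
  exact hR ω y

theorem tp_iso {W' : Type} {G' : SimpleGraph W'} [Countable W] [Countable W'] (φ : G' ≃g G)
    (A : Set W') (x y : W') : tp μ G (φ '' A) (φ x) (φ y) = tp μ G' A x y :=
  tp_embed μ (φ : G' ↪g G) A x y

end graph

end Pool.Agent.H890.Q
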